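import Pool.Agent.Lib.MP_84734f_lc.MainBound
import Pool.Agent.Lib.MP_84734f_lc.Ratio
import Pool.Agent.Lib.MP_84734f_lc.PivotMeas

/-!
# The self-dual parametric simplex method has polynomial smoothed complexity
-/

set_option autoImplicit false

namespace Pool.Agent.Results.MP_84734f_lc.PivotCount

open MeasureTheory ProbabilityTheory
open Pool.Agent.Lib.MP_84734f_lc

theorem result :
    ∃ C : ℝ, ∀ (m n : ℕ) (σ : ℝ), 0 < σ → σ ≤ 1 →
      ∀ (A₀ : Matrix (Fin m) (Fin n) ℝ) (b₀ : Fin m → ℝ) (c₀ : Fin n → ℝ),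
      let s : ℝ := σ * Real.sqrt ((∑ i, ∑ j, A₀ i j ^ 2) + (∑ i, b₀ i ^ 2) + (∑ j, c₀ j ^ 2))
      let μ := Measure.pi (fun _ : (Fin m × Fin n) ⊕ (Fin m ⊕ Fin n) => gaussianReal 0 1)
      let A := fun ω : (Fin m × Fin n) ⊕ (Fin m ⊕ Fin n) → ℝ =>
        A₀ + s • Matrix.of (fun (i : Fin m) (j : Fin n) => ω (Sum.inl (i, j)))
      let b := fun ω : (Fin m × Fin n) ⊕ (Fin m ⊕ Fin n) → ℝ =>
        b₀ + s • (fun i : Fin m => ω (Sum.inr (Sum.inl i)))
      let c := fun ω : (Fin m × Fin n) ⊕ (Fin m ⊕ Fin n) → ℝ =>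
        c₀ + s • (fun j : Fin n => ω (Sum.inr (Sum.inr j)))
      (∀ᵐ ω ∂μ, ∀ k B, Reach (A ω) (b ω) (c ω) k B →
        (∃! B', ∃ t, Pivot (A ω) (b ω) (c ω) B t B') ∨
          Optimal (A ω) (b ω) (c ω) 0 B ∨ Infeasible (A ω) (b ω) ∨ Unbounded (A ω) (c ω)) ∧
      Measurable (fun ω => pivots (A ω) (b ω) (c ω)) ∧
      ∫⁻ ω, (pivots (A ω) (b ω) (c ω) + 1) ∂μ
        ≤ ENNReal.ofReal (C * ((m : ℝ) + n + 1 / σ) ^ 28) := by
  refine ⟨Cf, fun m n σ hσ hσ1 A₀ b₀ c₀ => ?_⟩
  intro s μ A b c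
  set N : ℝ := Real.sqrt ((∑ i, ∑ j, A₀ i j ^ 2) + (∑ i, b₀ i ^ 2) + (∑ j, c₀ j ^ 2)) with hN
  have hs : s = σ * N := rfl
  have hN0 : 0 ≤ N := Real.sqrt_nonneg _
  -- the data as a point of the data space
  set x₀ : Ix m n → ℝ := Sum.elim (fun p : Fin m × Fin n => A₀ p.1 p.2) (Sum.elim b₀ c₀)
    with hx₀
  have hA : ∀ ω, A ω = mat (toX (x₀ + s • ω)) := fun ω => rfl
  have hb : ∀ ω, b ω = (toX (x₀ + s • ω)).2.1 := fun ω => rfl
  have hc : ∀ ω, c ω = (toX (x₀ + s • ω)).2.2 := fun ω => rfl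
  have hmeas : Measurable (fun ω => pivots (A ω) (b ω) (c ω)) := by
    simp only [hA, hb, hc]
    exact measurable_pivots.comp (measurable_toX.comp (by fun_prop))
  have hbound := main_bound m n σ hσ hσ1 A₀ b₀ c₀ N hN
  -- almost surely the next basis is determined and `pivots + 1` is at most the number of bases
  have hkey : ∀ᵐ ω ∂μ, (∀ B B' B'' t t', Pivot (A ω) (b ω) (c ω) B t B' →
      Pivot (A ω) (b ω) (c ω) B t' B'' → B' = B'') ∧
      pivots (A ω) (b ω) (c ω) + 1 ≤ ((FS (A ω) (b ω) (c ω)).ncard : ENNReal) := by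
    rcases hN0.eq_or_lt with h0 | hpos
    · -- zero data: the slack basis is optimal at every parameter
      have hent := entry_le A₀ b₀ c₀
      rw [← hN, ← h0] at hent
      have hx0 : ∀ i, x₀ i = 0 := fun i => abs_nonpos_iff.1 (hent i)
      have hs0 : s = 0 := by rw [hs, ← h0, mul_zero]
      refine Filter.Eventually.of_forall fun ω => ?_
      have hAz : A ω = 0 := by
        ext i j
        have h1 := hx0 (Sum.inl (i, j))
        have h2 : A₀ i j = 0 := h1
        change A₀ i j + s * ω (Sum.inl (i, j)) = 0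
        rw [h2, hs0]
        ring
      have hbz : ∀ i, b ω i = 0 := by
        intro i
        have h2 : b₀ i = 0 := hx0 (Sum.inr (Sum.inl i))
        change b₀ i + s * ω (Sum.inr (Sum.inl i)) = 0
        rw [h2, hs0]
        ring
      have hcz : ∀ j, c ω j = 0 := by
        intro j
        have h2 : c₀ j = 0 := hx0 (Sum.inr (Sum.inr j))
        change c₀ j + s * ω (Sum.inr (Sum.inr j)) = 0
        rw [h2, hs0]
        ring
      have hopt : Optimal (A ω) (b ω) (c ω) 0 (slack m n) :=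
        slack_optimal _ (fun i => by rw [hbz i, add_zero]) (fun j => (hcz j).le)
      have honly : ∀ t B, Optimal (A ω) (b ω) (c ω) t B → B = slack m n := by
        intro t B hB
        exact basis_zero hAz hB.1
      have hnop : ∀ B B' t, ¬ Pivot (A ω) (b ω) (c ω) B t B' := by
        intro B B' t hp
        have hBs := honly _ _ hp.1.1.2
        subst hBs
        exact absurd (hp.1.2 ⟨le_rfl, hopt⟩) (not_le.2 hp.2.1)
      refine ⟨fun B B' B'' t t' hp => absurd hp (hnop _ _ _), ?_⟩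
      have hpiv : pivots (A ω) (b ω) (c ω) = 0 := by
        unfold pivots
        refine le_antisymm (iSup_le fun k => iSup_le fun ⟨B, hB⟩ => ?_) zero_le
        cases hB with
        | start => simp
        | pivot _ hp => exact absurd hp (hnop _ _ _)
      have h1 : (1 : ℕ) ≤ (FS (A ω) (b ω) (c ω)).ncard :=
        (Set.ncard_pos (Set.toFinite _)).2 ⟨slack m n, mem_FS le_rfl hopt⟩
      rw [hpiv, zero_add]
      exact_mod_cast h1
    · have hspos : 0 < s := mul_pos hσ hpos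
      filter_upwards [ae_gauss (ae_ND (m := m) (n := n)) hspos x₀] with ω hω
      have hND : ND (un (A ω)) (b ω) (c ω) := hω
      exact ⟨fun B B' B'' t t' h1 h2 => h1.unique hND h2, pivots_le hND⟩
  refine ⟨?_, hmeas, ?_⟩
  · filter_upwards [hkey] with ω hω k B hB
    rcases progress_of_optimal (reach_optimal hB) with ⟨t, B', hp⟩ | h
    · left
      refine ⟨B', ⟨t, hp⟩, ?_⟩
      rintro B'' ⟨t', hp'⟩
      exact hω.1 _ _ _ _ _ hp' hp
    · exact Or.inr h
  · refine le_trans (lintegral_mono_ae ?_) hbound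
    filter_upwards [hkey] with ω hω
    exact hω.2

end Pool.Agent.Results.MP_84734f_lc.PivotCount
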